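import Mathlib

namespace Pool.Agent.Results.MP_43a2f8_nt.Form

open Finset

/-- `a n` is the sum of `d * τ d` over the divisors `d < n` of `n`. -/
def a (n : ℕ) : ℕ := ∑ d ∈ n.properDivisors, d * d.divisors.card

lemma key (n : ℕ) (hn : Squarefree n) (h : a n = n) :
    ∏ p ∈ n.primeFactors, (1 + 2 * p) = (2 ^ n.primeFactors.card + 1) * ∏ p ∈ n.primeFactors, p := by
  have hn0 : n ≠ 0 := hn.ne_zero
  have hm : (ArithmeticFunction.pmul ArithmeticFunction.id (ArithmeticFunction.sigma 0)).IsMultiplicative :=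
    ArithmeticFunction.isMultiplicative_id.pmul ArithmeticFunction.isMultiplicative_sigma
  have h1 := hm.prodPrimeFactors_one_add_of_squarefree hn
  have h2 : n.divisors.card = 2 ^ n.primeFactors.card := by
    rw [Nat.card_divisors hn0, Finset.prod_congr rfl (g := fun _ => 2)]
    · simp
    · intro p hp
      rw [Nat.factorization_eq_one_of_squarefree hn (Nat.prime_of_mem_primeFactors hp)
        (Nat.dvd_of_mem_primeFactors hp)]
  rw [Nat.prod_primeFactors_of_squarefree hn]
  have h3 : ∏ p ∈ n.primeFactors, (1 + 2 * p) = ∏ p ∈ n.primeFactors,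
      (1 + (ArithmeticFunction.pmul ArithmeticFunction.id (ArithmeticFunction.sigma 0)) p) := by
    refine Finset.prod_congr rfl fun p hp => ?_
    have hp' := Nat.prime_of_mem_primeFactors hp
    simp [ArithmeticFunction.sigma_zero_apply, hp'.divisors, Finset.card_pair hp'.one_lt.ne, mul_comm]
  rw [h3, h1, ← Nat.insert_self_properDivisors hn0, Finset.sum_insert Nat.self_notMem_properDivisors]
  have h4 : ∑ d ∈ n.properDivisors,
      (ArithmeticFunction.pmul ArithmeticFunction.id (ArithmeticFunction.sigma 0)) d = a n := by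
    refine Finset.sum_congr rfl fun d _ => ?_
    simp [ArithmeticFunction.sigma_zero_apply]
  rw [h4, h]
  simp only [ArithmeticFunction.pmul_apply, ArithmeticFunction.id_apply,
    ArithmeticFunction.sigma_zero_apply, h2]
  ring

lemma sqfree (n : ℕ) (hn : Squarefree n) (hk : Even n.primeFactors.card) (h : a n = n) :
    n = 21 := by
  have hkey := key n hn h
  by_cases h3 : 3 ∈ n.primeFactors
  · have e1 := Finset.mul_prod_erase _ (fun p => 1 + 2 * p) h3
    have e2 := Finset.mul_prod_erase _ (fun p => p) h3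
    have hc := Finset.card_erase_add_one h3
    set S := n.primeFactors.erase 3 with hS
    rw [← e1, ← e2, ← hc] at hkey
    have hpos : 0 < ∏ p ∈ S, p :=
      Finset.prod_pos fun p hp => (Nat.prime_of_mem_primeFactors (Finset.mem_of_mem_erase hp)).pos
    have hle : 2 ^ S.card * ∏ p ∈ S, p ≤ ∏ p ∈ S, (1 + 2 * p) := by
      rw [← Finset.prod_const, ← Finset.prod_mul_distrib]
      exact Finset.prod_le_prod' fun p _ => by omega
    have hle2 : 2 ^ S.card ≤ 3 := by
      by_contra hcon
      push Not at hcon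
      rw [pow_succ] at hkey
      nlinarith
    have hS1 : S.card = 1 := by
      rw [← hc] at hk
      have h2 : S.card < 2 := by
        by_contra hcon
        push Not at hcon
        have := Nat.pow_le_pow_right (show 0 < 2 by norm_num) hcon
        omega
      rcases hk with ⟨r, hr⟩
      omega
    obtain ⟨q, hq⟩ := Finset.card_eq_one.mp hS1
    rw [hq] at hkey e2
    simp only [Finset.prod_singleton, Finset.card_singleton] at hkey e2
    have hq7 : q = 7 := by omega
    rw [← Nat.prod_primeFactors_of_squarefree hn, ← e2, hq7]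
    try rfl
  · exfalso
    have hz := congrArg (Nat.cast : ℕ → ZMod 3) hkey
    push_cast at hz
    have hpow : (2 : ZMod 3) ^ n.primeFactors.card = 1 := by
      obtain ⟨r, hr⟩ := hk
      rw [hr, ← two_mul, pow_mul]
      have : (2 : ZMod 3) ^ 2 = 1 := by decide
      rw [this, one_pow]
    have t1 : (1 + 1 : ZMod 3) ≠ 0 := by decide
    have t2 : ∀ x : ZMod 3, x ≠ 0 → 1 + 2 * x ≠ 0 → 1 + 2 * x = x := by decide
    have : Fact (Nat.Prime 3) := ⟨by norm_num⟩
    have hne : ∀ p ∈ n.primeFactors, (p : ZMod 3) ≠ 0 := by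
      intro p hp h0
      rw [ZMod.natCast_eq_zero_iff] at h0
      have := (Nat.prime_dvd_prime_iff_eq (by norm_num) (Nat.prime_of_mem_primeFactors hp)).mp h0
      exact h3 (this ▸ hp)
    have hP : (∏ p ∈ n.primeFactors, (p : ZMod 3)) ≠ 0 := Finset.prod_ne_zero_iff.mpr hne
    rw [hpow] at hz
    have hL : (∏ p ∈ n.primeFactors, (1 + 2 * (p : ZMod 3))) ≠ 0 := by
      rw [hz]
      exact mul_ne_zero t1 hP
    have hE : (∏ p ∈ n.primeFactors, (1 + 2 * (p : ZMod 3))) = ∏ p ∈ n.primeFactors, (p : ZMod 3) := by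
      refine Finset.prod_congr rfl fun p hp => ?_
      exact t2 _ (hne p hp) (Finset.prod_ne_zero_iff.mp hL p hp)
    rw [hE] at hz
    apply hP
    linear_combination -hz

/-- The local factor `1 + 2p + ... + (e+1) p^e`. -/
def F (p e : ℕ) : ℕ := ∑ i ∈ range (e + 1), p ^ i * (i + 1)

lemma key2 (n : ℕ) (hn0 : n ≠ 0) (h : a n = n) :
    ∏ p ∈ n.primeFactors, F p (n.factorization p) =
      (∏ p ∈ n.primeFactors, (n.factorization p + 1) + 1) * n := by
  have hm : (ArithmeticFunction.pmul ArithmeticFunction.id (ArithmeticFunction.sigma 0)).IsMultiplicative :=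
    ArithmeticFunction.isMultiplicative_id.pmul ArithmeticFunction.isMultiplicative_sigma
  have hm2 := hm.mul ArithmeticFunction.isMultiplicative_zeta
  have h1 := hm2.multiplicative_factorization _ hn0
  rw [ArithmeticFunction.mul_zeta_apply, Finsupp.prod, Nat.support_factorization] at h1
  have h3 : ∏ p ∈ n.primeFactors, F p (n.factorization p) = ∏ p ∈ n.primeFactors,
      ((ArithmeticFunction.pmul ArithmeticFunction.id (ArithmeticFunction.sigma 0)) *
        ArithmeticFunction.zeta) (p ^ n.factorization p) := by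
    refine Finset.prod_congr rfl fun p hp => ?_
    have hp' := Nat.prime_of_mem_primeFactors hp
    rw [ArithmeticFunction.mul_zeta_apply, Nat.sum_divisors_prime_pow hp', F]
    refine Finset.sum_congr rfl fun i _ => ?_
    rw [ArithmeticFunction.pmul_apply, ArithmeticFunction.id_apply,
      ArithmeticFunction.sigma_zero_apply_prime_pow hp']
  rw [h3, ← h1, ← Nat.card_divisors hn0, ← Nat.insert_self_properDivisors hn0,
    Finset.sum_insert Nat.self_notMem_properDivisors, Nat.insert_self_properDivisors hn0]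
  have h4 : ∑ d ∈ n.properDivisors,
      (ArithmeticFunction.pmul ArithmeticFunction.id (ArithmeticFunction.sigma 0)) d = a n := by
    refine Finset.sum_congr rfl fun d _ => ?_
    simp [ArithmeticFunction.sigma_zero_apply]
  rw [h4, h]
  simp only [ArithmeticFunction.pmul_apply, ArithmeticFunction.id_apply,
    ArithmeticFunction.sigma_zero_apply]
  ring

lemma odd_of_fix (n : ℕ) (hn0 : n ≠ 0) (h : a n = n) : Odd n := by
  by_contra hodd
  rw [Nat.not_odd_iff_even] at hodd
  obtain ⟨m, hm⟩ := hodd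
  have hm0 : m ≠ 0 := by omega
  by_cases hm1 : m = 1
  · subst hm1
    subst hm
    revert h
    decide
  have hsub : ({1, m} : Finset ℕ) ⊆ n.properDivisors := by
    intro x hx
    simp only [Finset.mem_insert, Finset.mem_singleton] at hx
    rw [Nat.mem_properDivisors]
    rcases hx with rfl | rfl
    · exact ⟨one_dvd _, by omega⟩
    · exact ⟨⟨2, by omega⟩, by omega⟩
  have h1 := Finset.sum_le_sum_of_subset (f := fun d => d * d.divisors.card) hsub
  rw [Finset.sum_pair (Ne.symm hm1)] at h1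
  have h2 : 2 ≤ m.divisors.card := by
    have : ({1, m} : Finset ℕ) ⊆ m.divisors := by
      intro x hx
      simp only [Finset.mem_insert, Finset.mem_singleton] at hx
      rw [Nat.mem_divisors]
      rcases hx with rfl | rfl
      · exact ⟨one_dvd _, hm0⟩
      · exact ⟨dvd_rfl, hm0⟩
    have h5 := Finset.card_le_card this
    rwa [Finset.card_pair (Ne.symm hm1)] at h5
  have h3 : a n = ∑ d ∈ n.properDivisors, d * d.divisors.card := rfl
  rw [← h3, h] at h1
  simp only [Nat.divisors_one, Finset.card_singleton] at h1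
  nlinarith

lemma F2 (p : ℕ) (hp : Odd p) : F p 2 % 4 = 2 := by
  obtain ⟨r, rfl⟩ := hp
  have : F (2 * r + 1) 2 = 4 * (3 * r ^ 2 + 4 * r + 1) + 2 := by
    simp [F, Finset.sum_range_succ]; ring
  omega

lemma F3 (p : ℕ) (hp : Odd p) : F p 3 % 2 = 0 := by
  have h2 := F2 p hp
  have : F p 3 = F p 2 + p ^ 3 * 4 := by
    simp [F, Finset.sum_range_succ]
  omega

lemma not_all_two (n : ℕ) (hn0 : n ≠ 0) (h : a n = n)
    (hall : ∀ p ∈ n.primeFactors, n.factorization p = 2) : False := by
  have hodd := odd_of_fix n hn0 h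
  have hkey := key2 n hn0 h
  have hpo : ∀ p ∈ n.primeFactors, Odd p := fun p hp =>
    hodd.of_dvd_nat (Nat.dvd_of_mem_primeFactors hp)
  have e1 : ∏ p ∈ n.primeFactors, (n.factorization p + 1) = 3 ^ n.primeFactors.card := by
    rw [← Finset.prod_const]
    exact Finset.prod_congr rfl fun p hp => by rw [hall p hp]
  have e2 : ∏ p ∈ n.primeFactors, F p (n.factorization p) =
      2 ^ n.primeFactors.card * ∏ p ∈ n.primeFactors, (F p 2 / 2) := by
    rw [← Finset.prod_const, ← Finset.prod_mul_distrib]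
    refine Finset.prod_congr rfl fun p hp => ?_
    have := F2 p (hpo p hp)
    rw [hall p hp]
    omega
  have e3 : Odd (∏ p ∈ n.primeFactors, (F p 2 / 2)) := by
    refine Finset.prod_induction _ Odd (fun x y hx hy => hx.mul hy) odd_one fun p hp => ?_
    have := F2 p (hpo p hp)
    rw [Nat.odd_iff]
    omega
  rw [e1, e2] at hkey
  generalize (∏ p ∈ n.primeFactors, (F p 2 / 2)) = u at hkey e3
  generalize n.primeFactors.card = k at hkey
  obtain ⟨r, hr⟩ := hodd
  obtain ⟨s, rfl⟩ := e3
  match k, hkey with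
  | 0, hkey => omega
  | 1, hkey => omega
  | 2, hkey => omega
  | k + 3, hkey =>
    have h8 : 8 ∣ (3 ^ (k + 3) + 1) * n := ⟨2 ^ k * (2 * s + 1), by rw [← hkey]; ring⟩
    have hco : Nat.Coprime 8 n := by
      have : Nat.Coprime 2 n := by
        rw [Nat.coprime_two_left]
        exact ⟨r, hr⟩
      exact Nat.Coprime.pow_left 3 this
    have h9 := hco.dvd_of_dvd_mul_right h8
    have h10 : ∀ j : ℕ, 3 ^ j % 8 = 1 ∨ 3 ^ j % 8 = 3 := by
      intro j
      induction j with
      | zero => simp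
      | succ j ih => rw [pow_succ]; omega
    have := h10 (k + 3)
    omega

lemma three (n : ℕ) (hn0 : n ≠ 0) (h : a n = n) (h3 : 3 ∣ n) : n = 21 := by
  obtain ⟨m, hm⟩ := h3
  have hm0 : m ≠ 0 := by omega
  by_cases hm1 : m = 1
  · subst hm1
    subst hm
    revert h
    decide
  have hsub : ({1, m} : Finset ℕ) ⊆ n.properDivisors := by
    intro x hx
    simp only [Finset.mem_insert, Finset.mem_singleton] at hx
    rw [Nat.mem_properDivisors]
    rcases hx with rfl | rfl
    · exact ⟨one_dvd _, by omega⟩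
    · exact ⟨⟨3, by omega⟩, by omega⟩
  have h1 := Finset.sum_le_sum_of_subset (f := fun d => d * d.divisors.card) hsub
  rw [Finset.sum_pair (Ne.symm hm1)] at h1
  have h3 : a n = ∑ d ∈ n.properDivisors, d * d.divisors.card := rfl
  rw [← h3, h] at h1
  simp only [Nat.divisors_one, Finset.card_singleton] at h1
  have hp : m.Prime := by
    by_contra hnp
    have l1 := Nat.minFac_prime hm1
    have l2 : m.minFac ≠ m := fun hc => hnp (hc ▸ l1)
    have l3 := l1.one_lt
    have : ({1, m.minFac, m} : Finset ℕ) ⊆ m.divisors := by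
      intro x hx
      simp only [Finset.mem_insert, Finset.mem_singleton] at hx
      rw [Nat.mem_divisors]
      rcases hx with rfl | rfl | rfl
      · exact ⟨one_dvd _, hm0⟩
      · exact ⟨Nat.minFac_dvd _, hm0⟩
      · exact ⟨dvd_rfl, hm0⟩
    have h5 := Finset.card_le_card this
    rw [Finset.card_eq_three.mpr ⟨1, m.minFac, m, l3.ne, Ne.symm hm1, l2, rfl⟩] at h5
    nlinarith
  by_cases hm3 : m = 3
  · subst hm3
    subst hm
    revert h
    decide
  have hco : Nat.Coprime 3 m := (Nat.coprime_primes (by norm_num) hp).mpr (Ne.symm hm3)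
  refine sqfree n ?_ ?_ h
  · rw [hm]
    exact (Nat.squarefree_mul hco).mpr ⟨(show Nat.Prime 3 by norm_num).squarefree, hp.squarefree⟩
  · rw [hm, Nat.primeFactors_mul (by norm_num) hm0, (show Nat.Prime 3 by norm_num).primeFactors,
      hp.primeFactors, ← Finset.insert_eq, Finset.card_pair (Ne.symm hm3)]
    exact even_two

lemma F4 (p : ℕ) (hp : Odd p) : F p 4 % 2 = 1 := by
  have h2 := F3 p hp
  have h3 : Odd (p ^ 4) := hp.pow
  rw [Nat.odd_iff] at h3
  have : F p 4 = F p 3 + p ^ 4 * 5 := by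
    simp [F, Finset.sum_range_succ]
  omega

lemma G4 (p : ℕ) (hp : ¬ 3 ∣ p) : 3 ∣ F p 4 := by
  have t : ∀ x : ZMod 3, x ≠ 0 → 1 + x * 2 + x ^ 2 * 3 + x ^ 3 * 4 + x ^ 4 * 5 = 0 := by decide
  rw [← ZMod.natCast_eq_zero_iff] at hp ⊢
  have : F p 4 = 1 + p * 2 + p ^ 2 * 3 + p ^ 3 * 4 + p ^ 4 * 5 := by
    simp [F, Finset.sum_range_succ]
  rw [this]
  push_cast
  exact t _ hp

lemma G5 (p : ℕ) (hp : ¬ 3 ∣ p) : 3 ∣ F p 5 := by
  have h2 := G4 p hp
  have : F p 5 = F p 4 + p ^ 5 * 6 := by
    simp [F, Finset.sum_range_succ]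
  omega

lemma six (n : ℕ) (hn : 0 < n) (h : a n = n) (h21 : n ≠ 21) :
    Nat.Coprime n 6 ∧ ((∀ p : ℕ, p.Prime → ¬ p ^ 6 ∣ n) →
      Odd n.primeFactors.card ∧
      (∀ p ∈ n.primeFactors, n.factorization p = 1 ∨ n.factorization p = 4) ∧
      ∃ p ∈ n.primeFactors, n.factorization p = 1) := by
  have hn0 : n ≠ 0 := hn.ne'
  have hodd := odd_of_fix n hn0 h
  have h3 : ¬ 3 ∣ n := fun hc => h21 (three n hn0 h hc)
  have hc3 : Nat.Coprime 3 n := (Nat.Prime.coprime_iff_not_dvd (by norm_num)).mpr h3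
  refine ⟨?_, fun h6 => ?_⟩
  · exact Nat.Coprime.mul_right (k := n) (m := 2) (n := 3) (Nat.coprime_two_right.mpr hodd) hc3.symm
  have hkey := key2 n hn0 h
  have hpo : ∀ p ∈ n.primeFactors, Odd p := fun p hp =>
    hodd.of_dvd_nat (Nat.dvd_of_mem_primeFactors hp)
  have hp3 : ∀ p ∈ n.primeFactors, ¬ 3 ∣ p := fun p hp hc =>
    h3 (hc.trans (Nat.dvd_of_mem_primeFactors hp))
  have he : ∀ p ∈ n.primeFactors, 1 ≤ n.factorization p ∧ n.factorization p ≤ 5 := by
    intro p hp
    have hp' := Nat.prime_of_mem_primeFactors hp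
    have l1 := hp'.factorization_pos_of_dvd hn0 (Nat.dvd_of_mem_primeFactors hp)
    have l2 : ¬ 6 ≤ n.factorization p := fun hc =>
      h6 p hp' ((hp'.pow_dvd_iff_le_factorization hn0).mpr hc)
    omega
  have hT3 : ∀ p ∈ n.primeFactors, 3 ∣ F p (n.factorization p) →
      3 ∣ ∏ p ∈ n.primeFactors, (n.factorization p + 1) + 1 := by
    intro p hp hd
    have := hd.trans (Finset.dvd_prod_of_mem (fun p => F p (n.factorization p)) hp)
    rw [hkey] at this
    exact hc3.dvd_of_dvd_mul_right this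
  by_cases hev : ∃ q ∈ n.primeFactors, n.factorization q % 2 = 1
  · obtain ⟨q, hq, hq2⟩ := hev
    have hT : 2 ∣ ∏ p ∈ n.primeFactors, (n.factorization p + 1) := by
      refine Dvd.dvd.trans ?_ (Finset.dvd_prod_of_mem _ hq)
      omega
    have hR : Odd (∏ p ∈ n.primeFactors, F p (n.factorization p)) := by
      rw [hkey]
      refine Odd.mul ?_ hodd
      rw [Nat.odd_iff]
      omega
    have h14 : ∀ p ∈ n.primeFactors, n.factorization p = 1 ∨ n.factorization p = 4 := by
      intro p hp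
      have h5 := hR.of_dvd_nat (Finset.dvd_prod_of_mem _ hp)
      rw [Nat.odd_iff] at h5
      have l6 := F2 p (hpo p hp)
      have l7 := F3 p (hpo p hp)
      have l8 := he p hp
      have l2 : n.factorization p ≠ 2 := fun hc => by rw [hc] at h5; omega
      have l3 : n.factorization p ≠ 3 := fun hc => by rw [hc] at h5; omega
      have l5 : n.factorization p ≠ 5 := fun hc => by
        have m1 := hT3 p hp (by rw [hc]; exact G5 p (hp3 p hp))
        have m2 : 3 ∣ ∏ p ∈ n.primeFactors, (n.factorization p + 1) := by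
          refine Dvd.dvd.trans ?_ (Finset.dvd_prod_of_mem _ hp)
          omega
        omega
      omega
    refine ⟨?_, h14, q, hq, by have := h14 q hq; omega⟩
    by_contra hk
    rw [Nat.not_odd_iff_even] at hk
    have hT1 : (∏ p ∈ n.primeFactors, (n.factorization p + 1)) ≡ 2 ^ n.primeFactors.card [MOD 3] := by
      rw [← Finset.prod_const]
      refine Nat.ModEq.prod fun p hp => ?_
      rcases h14 p hp with hc | hc <;> rw [hc] <;> decide
    have hT2 : 2 ^ n.primeFactors.card % 3 = 1 := by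
      obtain ⟨r, hr⟩ := hk
      rw [hr, ← two_mul, pow_mul, Nat.pow_mod]
      simp
    refine h21 (sqfree n ?_ hk h)
    rw [Nat.squarefree_iff_factorization_le_one hn0]
    intro p
    by_cases hp : p ∈ n.primeFactors
    · rcases h14 p hp with hc | hc
      · omega
      · have m1 := hT3 p hp (by rw [hc]; exact G4 p (hp3 p hp))
        unfold Nat.ModEq at hT1
        omega
    · rw [← Nat.support_factorization, Finsupp.notMem_support_iff] at hp
      omega
  · exfalso
    push Not at hev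
    by_cases hall : ∀ p ∈ n.primeFactors, n.factorization p = 2
    · exact not_all_two n hn0 h hall
    push Not at hall
    obtain ⟨q, hq, hq2⟩ := hall
    have hq4 : n.factorization q = 4 := by
      have := he q hq
      have := hev q hq
      omega
    have m1 := hT3 q hq (by rw [hq4]; exact G4 q (hp3 q hq))
    have hall4 : ∀ p ∈ n.primeFactors, n.factorization p = 4 := by
      intro p hp
      have l1 := he p hp
      have l2 := hev p hp
      by_contra hc
      have m2 : 3 ∣ ∏ p ∈ n.primeFactors, (n.factorization p + 1) := by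
        refine Dvd.dvd.trans ?_ (Finset.dvd_prod_of_mem _ hp)
        omega
      omega
    have o1 : Odd (∏ p ∈ n.primeFactors, F p (n.factorization p)) := by
      refine Finset.prod_induction _ Odd (fun x y hx hy => hx.mul hy) odd_one fun p hp => ?_
      rw [hall4 p hp, Nat.odd_iff]
      exact F4 p (hpo p hp)
    have o2 : Odd (∏ p ∈ n.primeFactors, (n.factorization p + 1)) := by
      refine Finset.prod_induction _ Odd (fun x y hx hy => hx.mul hy) odd_one fun p hp => ?_
      rw [hall4 p hp]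
      decide
    rw [hkey] at o1
    have o3 := (Nat.odd_mul.mp o1).1
    rw [Nat.odd_iff] at o2 o3
    omega

lemma Fsucc (p e : ℕ) : F p (e + 1) = F p e + p ^ (e + 1) * (e + 2) := by
  simp [F, Finset.sum_range_succ]

lemma Fpar (p : ℕ) (hp : Odd p) (e : ℕ) : F p e % 2 = ((e + 2) / 2) % 2 := by
  induction e with
  | zero => simp [F]
  | succ e ih =>
    obtain ⟨r, hr⟩ : Odd (p ^ (e + 1)) := hp.pow
    rw [Fsucc, hr]
    have : (2 * r + 1) * (e + 2) = 2 * (r * (e + 2)) + (e + 2) := by ring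
    rw [this]
    generalize r * (e + 2) = w
    generalize F p e = v at ih
    have h4 : e % 4 = 0 ∨ e % 4 = 1 ∨ e % 4 = 2 ∨ e % 4 = 3 := by omega
    rcases h4 with h4 | h4 | h4 | h4 <;> omega

lemma Fmod (p e : ℕ) : F p e % p = 1 % p := by
  induction e with
  | zero => simp [F]
  | succ e ih =>
    rw [Fsucc, pow_succ, mul_right_comm, Nat.add_mul_mod_self_right, ih]

lemma Fthree (p : ℕ) (hp : (p : ZMod 3) ≠ 0) (r : ℕ) :
    (p : ZMod 3) ^ (6 * r) = 1 ∧ (F p (6 * r) : ZMod 3) = 1 := by
  have t0 : ∀ x : ZMod 3, x ≠ 0 → x ^ 6 = 1 := by decide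
  have t1 : ∀ x y : ZMod 3, x ≠ 0 → 1 + x * (6 * y + 2) + x ^ 2 * (6 * y + 1 + 2) +
      x ^ 3 * (6 * y + 1 + 1 + 2) + x ^ 4 * (6 * y + 1 + 1 + 1 + 2) +
      x ^ 5 * (6 * y + 1 + 1 + 1 + 1 + 2) + x ^ 6 * (6 * y + 1 + 1 + 1 + 1 + 1 + 2) = 1 := by decide
  refine ⟨by rw [pow_mul, t0 _ hp, one_pow], ?_⟩
  induction r with
  | zero => simp [F]
  | succ r ih =>
    have h1 : (p : ZMod 3) ^ (6 * r) = 1 := by rw [pow_mul, t0 _ hp, one_pow]
    rw [show 6 * (r + 1) = 6 * r + 1 + 1 + 1 + 1 + 1 + 1 by ring]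
    simp only [Fsucc]
    push_cast
    rw [ih]
    simp only [pow_succ _ (6 * r + _), pow_succ _ (6 * r), h1]
    have := t1 (p : ZMod 3) (r : ZMod 3) hp
    linear_combination this

lemma Fcase (p : ℕ) (hp : (p : ZMod 3) ≠ 0) (e : ℕ) :
    (e % 6 = 5 → (F p e : ZMod 3) = 0) ∧
    (e % 6 = 0 ∨ e % 6 = 1 ∨ e % 6 = 4 → (F p e : ZMod 3) ≠ 0 → (F p e : ZMod 3) = p ^ e) := by
  obtain ⟨h1, h2⟩ := Fthree p hp (e / 6)
  have t1 : ∀ x y : ZMod 3, x ≠ 0 → 1 + x * (6 * y + 2) ≠ 0 → 1 + x * (6 * y + 2) = x := by decide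
  have t4 : ∀ x y : ZMod 3, x ≠ 0 → 1 + x * (6 * y + 2) + x ^ 2 * (6 * y + 1 + 2) +
      x ^ 3 * (6 * y + 1 + 1 + 2) + x ^ 4 * (6 * y + 1 + 1 + 1 + 2) = 0 := by decide
  have t5 : ∀ x y : ZMod 3, x ≠ 0 → 1 + x * (6 * y + 2) + x ^ 2 * (6 * y + 1 + 2) +
      x ^ 3 * (6 * y + 1 + 1 + 2) + x ^ 4 * (6 * y + 1 + 1 + 1 + 2) +
      x ^ 5 * (6 * y + 1 + 1 + 1 + 1 + 2) = 0 := by decide
  generalize hr : e / 6 = r at h1 h2
  refine ⟨fun h5 => ?_, fun h0 hne => ?_⟩
  · obtain rfl : e = 6 * r + 1 + 1 + 1 + 1 + 1 := by omega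
    simp only [Fsucc]
    push_cast
    rw [h2]
    simp only [pow_succ _ (6 * r + _), pow_succ _ (6 * r), h1]
    linear_combination t5 (p : ZMod 3) (r : ZMod 3) hp
  · rcases h0 with h0 | h0 | h0
    · obtain rfl : e = 6 * r := by omega
      rw [h1, h2]
    · obtain rfl : e = 6 * r + 1 := by omega
      simp only [Fsucc] at hne ⊢
      push_cast at hne ⊢
      rw [h2, pow_succ, h1, one_mul] at hne ⊢
      exact t1 _ _ hp hne
    · exfalso
      obtain rfl : e = 6 * r + 1 + 1 + 1 + 1 := by omega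
      apply hne
      simp only [Fsucc]
      push_cast
      rw [h2]
      simp only [pow_succ _ (6 * r + _), pow_succ _ (6 * r), h1]
      linear_combination t4 (p : ZMod 3) (r : ZMod 3) hp

theorem result (n : ℕ) (hn : 0 < n) (h : a n = n) (h21 : n ≠ 21) :
    Nat.Coprime n 6 ∧ 2 ≤ n.primeFactors.card ∧
    ((∃ q ∈ n.primeFactors, n.factorization q % 2 = 1) →
      ∀ p ∈ n.primeFactors, n.factorization p % 4 = 0 ∨ n.factorization p % 4 = 1) ∧
    (∀ p ∈ n.primeFactors, n.factorization p % 6 ≠ 5) ∧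
    (n.divisors.card % 3 = 1 → ∃ p ∈ n.primeFactors, n.factorization p % 6 = 3) ∧
    ((∀ p : ℕ, p.Prime → ¬ p ^ 6 ∣ n) →
      Odd n.primeFactors.card ∧
      (∀ p ∈ n.primeFactors, n.factorization p = 1 ∨ n.factorization p = 4) ∧
      ∃ p ∈ n.primeFactors, n.factorization p = 1) := by
  have hn0 : n ≠ 0 := hn.ne'
  have hodd := odd_of_fix n hn0 h
  have h3 : ¬ 3 ∣ n := fun hc => h21 (three n hn0 h hc)
  have hkey := key2 n hn0 h
  have hpo : ∀ p ∈ n.primeFactors, Odd p := fun p hp =>
    hodd.of_dvd_nat (Nat.dvd_of_mem_primeFactors hp)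
  have hp3 : ∀ p ∈ n.primeFactors, (p : ZMod 3) ≠ 0 := fun p hp hc =>
    h3 (((ZMod.natCast_eq_zero_iff _ _).mp hc).trans (Nat.dvd_of_mem_primeFactors hp))
  have hn3 : (n : ZMod 3) ≠ 0 := fun hc => h3 ((ZMod.natCast_eq_zero_iff _ _).mp hc)
  have t1 : (1 + 1 : ZMod 3) ≠ 0 := by decide
  have : Fact (Nat.Prime 3) := ⟨by norm_num⟩
  refine ⟨(six n hn h h21).1, ?_, ?_, ?_, ?_, (six n hn h h21).2⟩
  · by_contra hc
    have h01 : n.primeFactors.card = 0 ∨ n.primeFactors.card = 1 := by omega
    rcases h01 with h0 | h1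
    · rw [Finset.card_eq_zero] at h0
      rw [h0] at hkey
      simp at hkey
      omega
    · obtain ⟨p, hp⟩ := Finset.card_eq_one.mp h1
      have hpm : p ∈ n.primeFactors := by rw [hp]; simp
      have hp' := Nat.prime_of_mem_primeFactors hpm
      rw [hp] at hkey
      simp only [Finset.prod_singleton] at hkey
      have m1 := Fmod p (n.factorization p)
      have m2 : p ∣ F p (n.factorization p) := by
        rw [hkey]
        exact Dvd.dvd.mul_left (Nat.dvd_of_mem_primeFactors hpm) _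
      rw [Nat.mod_eq_zero_of_dvd m2, Nat.mod_eq_of_lt hp'.one_lt] at m1
      omega
  · rintro ⟨q, hq, hq2⟩ p hp
    have hT : 2 ∣ ∏ p ∈ n.primeFactors, (n.factorization p + 1) := by
      refine Dvd.dvd.trans ?_ (Finset.dvd_prod_of_mem _ hq)
      omega
    have hR : Odd (∏ p ∈ n.primeFactors, F p (n.factorization p)) := by
      rw [hkey]
      refine Odd.mul ?_ hodd
      rw [Nat.odd_iff]
      omega
    have h5 := hR.of_dvd_nat (Finset.dvd_prod_of_mem _ hp)
    rw [Nat.odd_iff, Fpar p (hpo p hp)] at h5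
    omega
  · intro p hp h5
    have m0 := (ZMod.natCast_eq_zero_iff _ _).mp ((Fcase p (hp3 p hp) _).1 h5)
    have m1 := m0.trans (Finset.dvd_prod_of_mem (fun p => F p (n.factorization p)) hp)
    rw [hkey] at m1
    have hc3 : Nat.Coprime 3 n := (Nat.Prime.coprime_iff_not_dvd (by norm_num)).mpr h3
    have m3 := hc3.dvd_of_dvd_mul_right m1
    have m2 : 3 ∣ ∏ p ∈ n.primeFactors, (n.factorization p + 1) := by
      refine Dvd.dvd.trans ?_ (Finset.dvd_prod_of_mem _ hp)
      omega
    omega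
  · intro hT
    by_contra hc
    push Not at hc
    rw [Nat.card_divisors hn0] at hT
    have he : ∀ p ∈ n.primeFactors,
        n.factorization p % 6 = 0 ∨ n.factorization p % 6 = 1 ∨ n.factorization p % 6 = 4 := by
      intro p hp
      have m1 := hc p hp
      have m2 : ¬ 3 ∣ n.factorization p + 1 := fun hd => by
        have := hd.trans (Finset.dvd_prod_of_mem (fun p => n.factorization p + 1) hp)
        omega
      omega
    have hT' : ((∏ p ∈ n.primeFactors, (n.factorization p + 1) : ℕ) : ZMod 3) = 1 := by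
      rw [← ZMod.natCast_mod, hT]
      simp
    have hz := congrArg (Nat.cast : ℕ → ZMod 3) hkey
    rw [Nat.cast_mul, Nat.cast_add, hT', Nat.cast_one, Nat.cast_prod] at hz
    have hL : (∏ p ∈ n.primeFactors, (F p (n.factorization p) : ZMod 3)) ≠ 0 := by
      rw [hz]
      exact mul_ne_zero t1 hn3
    have hE : (∏ p ∈ n.primeFactors, (F p (n.factorization p) : ZMod 3)) = n := by
      conv_rhs => rw [← Nat.prod_factorization_pow_eq_self hn0, Finsupp.prod,
        Nat.support_factorization, Nat.cast_prod]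
      refine Finset.prod_congr rfl fun p hp => ?_
      rw [Nat.cast_pow]
      exact (Fcase p (hp3 p hp) _).2 (he p hp) (Finset.prod_ne_zero_iff.mp hL p hp)
    rw [hE] at hz
    apply hn3
    linear_combination -hz

end Pool.Agent.Results.MP_43a2f8_nt.Form
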